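import Mathlib
import Pool.Agent.H.MP_cb142b_pr.A

namespace Pool.Agent.Results.MP_cb142b_pr.Bound

open MeasureTheory ProbabilityTheory Finset Pool.Agent.Lib.helper3 Pool.Agent.H.MP_cb142b_pr
open scoped ENNReal NNReal

variable {V : Type} [Fintype V] (G : SimpleGraph V) [DecidableRel G.Adj]

/-- stationary law -/
noncomputable def stat (x : V) : ℝ := G.degree x / (2 * G.edgeFinset.card)

/-- transition matrix -/
noncomputable def tr (x y : V) : ℝ := if G.Adj x y then 1 / G.degree x else 0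

/-- Dirichlet form -/
noncomputable def dir (h : V → ℝ) : ℝ := 1 / 2 * ∑ x, ∑ y, stat G x * tr G x y * (h x - h y) ^ 2

/-- variance under the stationary law -/
noncomputable def var (h : V → ℝ) : ℝ := ∑ x, stat G x * (h x - ∑ y, stat G y * h y) ^ 2

/-- spectral profile -/
noncomputable def prof (ε : ℝ) : ℝ≥0∞ :=
  ⨅ (h : V → ℝ) (_ : var G h = 1) (_ : ∑ x with h x ≠ 0, stat G x ≤ ε), ENNReal.ofReal (dir G h)

/-- spectral profile time -/
noncomputable def tsp : ℝ≥0∞ :=
  ∫⁻ δ in Set.Ioc (4 * ⨅ x, stat G x) 16, 2 / (ENNReal.ofReal δ * prof G δ)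

/-- jump chain -/
def jump {W : Type} (x : W) (ω : ℕ → W → W) : ℕ → W
  | 0 => x
  | n + 1 => ω n (jump x ω n)

/-- continuous time walk -/
noncomputable def pos {W : Type} (x : W) (ω : (ℕ → W → W) × (ℕ → ℝ)) (t : ℝ) : W :=
  jump x ω.1 (sInf {n | t < ∑ i ∈ range (n + 1), ω.2 i})

/-- law of the moves and holding times -/
noncomputable def law : @Measure ((ℕ → V → V) × (ℕ → ℝ))
    (letI : MeasurableSpace V := ⊤; inferInstance) :=
  letI : MeasurableSpace V := ⊤
  (Measure.infinitePi fun _ : ℕ => Measure.infinitePi fun v => uniformOn (G.neighborSet v)).prod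
    (Measure.infinitePi fun _ : ℕ => expMeasure 1)

/-- maximal expected hitting time -/
noncomputable def thit : ℝ≥0∞ :=
  ⨆ (x : V) (y : V), ∫⁻ ω, ⨅ (t : ℝ≥0) (_ : pos x ω t = y), (t : ℝ≥0∞) ∂law G

lemma jump_eq {W : Type} (x : W) (ω : ℕ → W → W) (n : ℕ) : jump x ω n = SRW.walk x ω n := by
  induction n with
  | zero => rfl
  | succ n ih => rw [jump, ih, SRW.walk]

lemma mean : ∫⁻ t, ENNReal.ofReal t ∂expMeasure 1 = 1 := by
  rw [expMeasure, gammaMeasure, lintegral_withDensity_eq_lintegral_mul _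
    (by unfold gammaPDF; fun_prop) (by fun_prop), ← lintegral_gammaPDF_eq_one two_pos one_pos]
  refine lintegral_congr fun t => ?_
  rcases lt_or_ge t 0 with h | h
  · simp [gammaPDF_of_neg h]
  · rw [Pi.mul_apply, gammaPDF_of_nonneg h, gammaPDF_of_nonneg h,
      ← ENNReal.ofReal_mul (by positivity)]
    norm_num [mul_comm]

local instance ms : MeasurableSpace V := ⊤

lemma low [DecidableEq V] (hG : ∀ v, 0 < G.degree v) (x y : V) :
    ∑' n, ENNReal.ofReal (β G y n x) ≤ thit G := by
  have := SRW.pr G hG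
  have := isProbabilityMeasure_expMeasure one_pos
  refine le_trans ?_ (le_iSup₂_of_le x y le_rfl)
  have m : ∀ n, Measurable fun ω : (ℕ → V → V) × (ℕ → ℝ) =>
      (A x y (n + 1)).indicator 1 ω.1 * ENNReal.ofReal (ω.2 n) := fun n =>
    ((measurable_one.indicator (mA x y _)).comp measurable_fst).mul (by fun_prop)
  have e : ∀ n, ENNReal.ofReal (β G y n x) = ∫⁻ ω,
      (A x y (n + 1)).indicator 1 ω.1 * ENNReal.ofReal (ω.2 n) ∂law G := fun n => by
    rw [law, lintegral_prod_mul (f := (A x y (n + 1)).indicator 1)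
      (g := fun τ : ℕ → ℝ => ENNReal.ofReal (τ n)) (measurable_one.indicator (mA x y _)).aemeasurable
      (Measurable.aemeasurable (by fun_prop)), lintegral_indicator_one (mA x y _), PA' G hG,
      (measurePreserving_eval_infinitePi _ n).lintegral_comp ENNReal.measurable_ofReal, mean, mul_one]
  simp only [e]
  rw [← lintegral_tsum fun n => (m n).aemeasurable]
  have h0 : ∀ᵐ t ∂expMeasure 1, 0 ≤ t := by
    rw [ae_iff, expMeasure, gammaMeasure, withDensity_apply _ (by measurability)]
    simp only [not_le]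
    exact lintegral_gammaPDF_of_nonpos (a := 1) (r := 1) le_rfl
  have h1 : ∀ᵐ ω ∂law G, ∀ n, 0 ≤ ω.2 n := ae_all_iff.2 fun n =>
    ((measurePreserving_eval_infinitePi _ n).comp measurePreserving_snd).quasiMeasurePreserving.ae h0
  refine lintegral_mono_ae (h1.mono fun ω h => le_iInf₂ fun t ht => ?_)
  rw [pos, jump_eq] at ht
  generalize hc : sInf {n | (t : ℝ) < ∑ i ∈ range (n + 1), ω.2 i} = c at ht
  rw [tsum_eq_sum (s := range c) fun n hn => by
    rw [Set.indicator_of_notMem (s := A x y (n + 1)) fun k => k c (by simpa [Nat.lt_succ_iff] using hn) ht, zero_mul]]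
  refine (sum_le_sum fun n _ => mul_le_of_le_one_left zero_le (Set.indicator_le_self _ _ ω.1)).trans ?_
  rw [← ENNReal.ofReal_sum_of_nonneg fun n _ => h n, ← ENNReal.ofReal_coe_nnreal]
  refine ENNReal.ofReal_le_ofReal ?_
  rcases c with _ | c
  · simp
  · exact not_lt.1 (Nat.notMem_of_lt_sInf (c.lt_succ_self.trans_eq hc.symm))

lemma key [DecidableEq V] [Nonempty V] (hG : ∀ v, 0 < G.degree v) {H : ℝ≥0} (hH : thit G = H)
    (h : V → ℝ) : var G h ≤ 2 * H * ((∑ x with h x ≠ 0, stat G x) * dir G h) := by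
  have h1 := fun y v => (low G hG v y).trans_eq hH
  have hs : ∀ y v, Summable fun n => β G y n v := fun y v => by
    simpa [β0] using ENNReal.summable_toReal (ne_top_of_le_ne_top ENNReal.coe_ne_top (h1 y v))
  have h2 := commute G hG (H := H) hs (fun y v => by
    have := h1 y v
    rwa [← ENNReal.ofReal_tsum_of_nonneg (fun n => β0 G y n v) (hs y v),
      ENNReal.ofReal_le_coe] at this) h
  have hM : (2 * G.edgeFinset.card : ℝ) = ∑ z, (G.degree z : ℝ) := by
    exact_mod_cast G.sum_degrees_eq_twice_card_edges.symm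
  have hd : ∀ z, (0 : ℝ) < G.degree z := fun z => by exact_mod_cast hG z
  have hp : 0 < ∑ z, (G.degree z : ℝ) := sum_pos (fun z _ => hd z) univ_nonempty
  have h3 : SRW.D {p ∈ univ ×ˢ univ | G.Adj p.1 p.2} h h = 2 * (∑ z, (G.degree z : ℝ)) * dir G h := by
    rw [dir, SRW.D, sum_filter, sum_product, mul_assoc, mul_left_comm (∑ z, _), ← mul_assoc,
      mul_one_div_cancel two_ne_zero, one_mul, mul_sum]
    refine sum_congr rfl fun x _ => (sum_congr rfl fun y _ => ?_).trans (mul_sum _ _ _).symm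
    have := (hd x).ne'
    rw [stat, tr, hM]
    split_ifs
    · field_simp
    · simp
  have h4 : ∀ x y, (h x - h y) ^ 2 ≤ 2 * H * dir G h := fun x y =>
    le_of_mul_le_mul_left ((h2 x y).trans_eq (by rw [h3]; ring)) hp
  have h5 : ∑ x, stat G x = 1 := by simp only [stat, hM, ← sum_div, div_self hp.ne']
  have h6 : ∀ x, 0 ≤ stat G x := fun x => by unfold stat; positivity
  obtain ⟨y, hy⟩ : ∃ y, ∀ x, h x = 0 → h y = 0 := by
    by_cases k : ∃ y, h y = 0
    · exact k.imp fun y hy _ _ => hy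
    · exact ⟨Classical.ofNonempty, fun x hx => (k ⟨x, hx⟩).elim⟩
  have h7 : var G h = ∑ x, stat G x * (h x - h y) ^ 2 - (h y - ∑ y, stat G y * h y) ^ 2 := by
    rw [var]
    set μ := ∑ y, stat G y * h y with hμ
    have : ∀ x, stat G x * (h x - μ) ^ 2 = stat G x * (h x - h y) ^ 2 +
      (2 * (h y - μ) * (stat G x * h x) + (μ ^ 2 - h y ^ 2) * stat G x) := fun x => by ring
    simp only [this, sum_add_distrib, ← mul_sum, ← hμ, h5]
    ring
  rw [h7, mul_left_comm, sum_mul, sum_filter]
  refine (sub_le_self _ (sq_nonneg _)).trans (sum_le_sum fun x _ => ?_)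
  split_ifs with k
  · exact mul_le_mul_of_nonneg_left (h4 x y) (h6 x)
  · rw [not_not] at k
    simp [k, hy x k]

theorem result (V : Type) [Fintype V] [Nontrivial V] (G : SimpleGraph V) [DecidableRel G.Adj]
    (hG : G.Connected) : tsp G ≤ 64 * thit G := by
  classical
  have hd : ∀ v, 0 < G.degree v := fun v => hG.preconnected.degree_pos_of_nontrivial v
  rcases eq_or_ne (thit G) ∞ with h | h
  · rw [h, ENNReal.mul_top (by simp)]; exact le_top
  lift thit G to ℝ≥0 using h with H hH
  have h0 : 0 ≤ ⨅ x, stat G x := Real.iInf_nonneg fun x => by unfold stat; positivity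
  refine (setLIntegral_mono' measurableSet_Ioc (g := fun _ => 2 * (2 * H)) fun δ hδ => ?_).trans ?_
  · have hδ : 0 < δ := by linarith [hδ.1]
    rw [div_eq_mul_inv]
    gcongr
    rw [ENNReal.inv_le_iff_inv_le]
    simp only [prof, ENNReal.mul_iInf_of_ne (ENNReal.ofReal_pos.2 hδ).ne' ENNReal.ofReal_ne_top]
    refine le_iInf fun f => le_iInf₂ fun h1 h2 => ?_
    have h3 : 0 ≤ dir G f := mul_nonneg (by norm_num) (sum_nonneg fun x _ => sum_nonneg fun y _ => by
      unfold stat tr; split_ifs <;> positivity)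
    rw [ENNReal.inv_le_iff_le_mul (fun k => absurd k (by finiteness)) fun k => absurd k (by finiteness),
      ← ENNReal.ofReal_mul hδ.le, ← ENNReal.ofReal_coe_nnreal, ← ENNReal.ofReal_ofNat,
      ← ENNReal.ofReal_mul (by positivity), ← ENNReal.ofReal_mul (by positivity),
      ENNReal.one_le_ofReal, ← h1]
    exact (key G hd hH.symm f).trans (by gcongr)
  · rw [setLIntegral_const, Real.volume_Ioc]
    calc _ ≤ 2 * (2 * (H : ℝ≥0∞)) * ENNReal.ofReal 16 := by gcongr; linarith
      _ = _ := by rw [ENNReal.ofReal_ofNat]; ring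

end Pool.Agent.Results.MP_cb142b_pr.Bound
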